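import Mathlib
import Pool.Agent.H10.PTree

set_option autoImplicit false

namespace Pool.Agent.Results.MP_75fda7_co.Counter

open Finset

noncomputable def distS {V : Type} (G : SimpleGraph V) (S : Finset V) (u v : V) : ℕ∞ :=
  ⨅ (p : G.Walk u v) (_ : p.IsPath ∧ (({u, v} : Set V) ∩ (S : Set V)).ncard = 1 ∧
    ∀ x ∈ p.support, x ∈ S → x = u ∨ x = v), (p.length : ℕ∞)

noncomputable def weight {V : Type} (G : SimpleGraph V) (S : Finset V) (u : V) : ℝ :=
  ∑ v ∈ S, if distS G S u v = ⊤ then 0 else (1 / 2 : ℝ) ^ (((distS G S u v).toNat : ℤ) - 1)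

noncomputable def gammaE {V : Type} (G : SimpleGraph V) : ℕ :=
  sInf {k | ∃ S : Finset V, S.card = k ∧ ∀ u, 1 ≤ weight G S u}

open Classical in
noncomputable def W (a : ℕ) : Finset ℕ :=
  (range (16 ^ (2 * a + 1))).filter fun x => ∀ j, a < j → ¬ (16 ^ j ≤ x ∧ x < 2 * 16 ^ j)

lemma memW {a x : ℕ} : x ∈ W a ↔ x < 16 ^ (2 * a + 1) ∧
    ∀ j, a < j → ¬ (16 ^ j ≤ x ∧ x < 2 * 16 ^ j) := by simp only [W, mem_filter, mem_range]

lemma W_div {a x : ℕ} (h : x ∈ W a) : x / 16 ∈ W a := by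
  simp only [memW] at h ⊢
  refine ⟨by omega, fun j hj hc => h.2 (j + 1) (by omega) ?_⟩
  rw [pow_succ]; omega

def T (a : ℕ) : SimpleGraph (W a) where
  Adj u v := u ≠ v ∧ (u.1 / 16 = v.1 ∨ v.1 / 16 = u.1)
  symm := ⟨fun _ _ h => ⟨h.1.symm, h.2.symm⟩⟩
  loopless := ⟨fun _ h => h.1 rfl⟩

def root (a : ℕ) : W a := ⟨0, by simp [memW]⟩

lemma walk (a j : ℕ) : ∀ x : W a, x.1 < 16 ^ j → ∃ p : (T a).Walk x (root a), p.length ≤ j := by
  induction j with
  | zero => intro x hx; obtain rfl : x = root a := Subtype.ext (by simpa [root] using hx); exact ⟨.nil, le_rfl⟩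
  | succ j ih =>
    intro x hx
    obtain ⟨p, hp⟩ := ih ⟨_, W_div x.2⟩ (by rw [pow_succ] at hx; simp; omega)
    by_cases h : x = ⟨_, W_div x.2⟩
    · exact ⟨p.copy h.symm rfl, by simp; omega⟩
    · exact ⟨.cons ⟨h, Or.inl rfl⟩ p, by simpa using hp⟩

lemma term {V : Type} {G : SimpleGraph V} {S : Finset V} {u v : V} {n : ℕ}
    (h : distS G S u v ≤ n) : (1 / 2 : ℝ) ^ ((n : ℤ) - 1) ≤
      if distS G S u v = ⊤ then 0 else (1 / 2 : ℝ) ^ (((distS G S u v).toNat : ℤ) - 1) := by
  rw [if_neg (ne_top_of_le_ne_top (ENat.natCast_ne_top n) h)]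
  have := ENat.toNat_le_of_le_natCast h
  exact zpow_le_zpow_right_of_le_one₀ (by norm_num) (by norm_num) (by omega)

lemma dom (a : ℕ) (ha : 1 ≤ a) : gammaE (T a) ≤ 16 ^ a := by
  classical
  let S : Finset (W a) := univ.filter fun x => 16 ^ a ≤ x.1 ∧ x.1 < 2 * 16 ^ a
  have hc : S.card = 16 ^ a := by
    rw [← card_map ⟨_, Subtype.val_injective⟩, show 16 ^ a = (Ico (16 ^ a) (2 * 16 ^ a)).card by
      simp; omega]
    congr 1
    ext x
    simp only [S, mem_map, mem_filter, mem_univ, true_and, mem_Ico, Function.Embedding.coeFn_mk]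
    refine ⟨fun ⟨y, h, e⟩ => e ▸ h, fun h => ⟨⟨x, ?_⟩, h, rfl⟩⟩
    rw [memW]
    have h1 := Nat.pow_le_pow_right (show 16 > 0 by norm_num) (show a + 1 ≤ 2 * a + 1 by omega)
    refine ⟨by rw [pow_succ] at h1; omega, fun j hj hc => ?_⟩
    have h2 := Nat.pow_le_pow_right (show 16 > 0 by norm_num) (show a + 1 ≤ j by omega)
    rw [pow_succ] at h2; omega
  refine Nat.sInf_le ⟨S, hc, fun u => ?_⟩
  by_cases hu : u ∈ S
  · have h1 : distS (T a) S u u ≤ (0 : ℕ) :=
      iInf₂_le_of_le .nil ⟨by simp, by simp [hu], by simp⟩ (by simp)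
    refine le_trans (le_trans (by norm_num) (term h1)) ?_
    unfold weight
    refine single_le_sum (f := fun v => if distS (T a) S u v = ⊤ then 0 else
      (1 / 2 : ℝ) ^ (((distS (T a) S u v).toNat : ℤ) - 1)) ?_ hu
    intro v _
    split_ifs <;> positivity
  have leaf : ∀ x ∈ S, ∀ y z, (T a).Adj x y → (T a).Adj x z → y = z := by
    have : ∀ x ∈ S, ∀ y, (T a).Adj x y → x.1 / 16 = y.1 := by
      rintro x hx y ⟨-, h | h⟩
      · exact h
      · have := (memW.mp y.2).2 (a + 1) (by omega)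
        have := (mem_filter.mp hx).2
        rw [pow_succ] at *; omega
    exact fun x hx y z h1 h2 => Subtype.ext ((this x hx y h1).symm.trans (this x hx z h2))
  have h2 : ∀ v ∈ S, distS (T a) S u v ≤ (3 * a + 2 : ℕ) := by
    intro v hv
    obtain ⟨p, hp⟩ := walk a (2 * a + 1) u (memW.mp u.2).1
    obtain ⟨q, hq⟩ := walk a (a + 1) v (by have := (mem_filter.mp hv).2; rw [pow_succ]; omega)
    have hl := (p.append q.reverse).length_bypass_le_length
    have hP := (p.append q.reverse).bypass_isPath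
    refine iInf₂_le_of_le (p.append q.reverse).bypass ⟨hP, ?_, fun x hx hxS => ?_⟩ ?_
    · rw [Set.insert_inter_of_notMem (by simpa using hu), Set.singleton_inter_of_mem (by simpa using hv)]
      simp
    · by_contra hc
      push Not at hc
      obtain ⟨i, rfl, hi⟩ := SimpleGraph.Walk.mem_support_iff_exists_getVert.mp hx
      set r := (p.append q.reverse).bypass
      have i0 : i ≠ 0 := fun e => hc.1 (by simp [e])
      have i1 : i ≠ r.length := fun e => hc.2 (by simp [e])
      obtain ⟨i, rfl⟩ := Nat.exists_eq_succ_of_ne_zero i0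
      have := leaf _ hxS _ _ (r.adj_getVert_succ (i := i) (by omega)).symm
        (r.adj_getVert_succ (i := i + 1) (by omega))
      have := hP.getVert_injOn (by simp; omega) (by simp; omega) this
      omega
    · simp only [SimpleGraph.Walk.length_append, SimpleGraph.Walk.length_reverse] at hl
      exact_mod_cast (by omega)
  refine le_trans ?_ (sum_le_sum fun v hv => term (h2 v hv))
  rw [sum_const, hc, show ((3 * a + 2 : ℕ) : ℤ) - 1 = (3 * a + 1 : ℕ) by push_cast; ring, zpow_natCast,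
    nsmul_eq_mul, one_div, inv_pow, ← div_eq_mul_inv, le_div_iff₀ (by positivity), one_mul]
  have : 2 ^ (3 * a + 1) ≤ 16 ^ a := by
    rw [show 16 = 2 ^ 4 by norm_num, ← pow_mul]; exact Nat.pow_le_pow_right (by norm_num) (by omega)
  exact_mod_cast this

theorem result (c : ℝ) (hc : 0 < c) : ∃ (V : Type) (_ : Fintype V) (G : SimpleGraph V),
    G.IsTree ∧ (∀ v, (G.neighborSet v).ncard ≤ 17) ∧ 2 ≤ Fintype.card V ∧
      (gammaE G : ℝ) < c * (Fintype.card V / Real.log (Fintype.card V)) := by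
  obtain ⟨a, ha⟩ := exists_nat_gt (45 / c)
  have ha0 : 1 ≤ a := Nat.one_le_iff_ne_zero.mpr fun e => by
    rw [e] at ha; exact absurd ha (by simp; positivity)
  have n1 : 16 ^ (2 * a) ≤ (W a).card := by
    rw [show 16 ^ (2 * a) = (Ico (2 * 16 ^ (2 * a)) (3 * 16 ^ (2 * a))).card by simp; omega]
    refine card_le_card fun x hx => ?_
    simp only [memW, mem_Ico] at hx ⊢
    refine ⟨by rw [pow_succ]; omega, fun j _ h => ?_⟩
    rcases le_or_gt j (2 * a) with h1 | h1
    · have := Nat.pow_le_pow_right (show 16 > 0 by norm_num) h1; omega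
    · have := Nat.pow_le_pow_right (show 16 > 0 by norm_num) (Nat.succ_le_of_lt h1)
      rw [pow_succ] at this; omega
  have n2 : (W a).card ≤ 16 ^ (2 * a + 1) := by
    simpa using card_le_card (t := range (16 ^ (2 * a + 1))) fun x hx => mem_range.mpr (memW.mp hx).1
  have n3 : 2 ≤ 16 ^ (2 * a) := le_trans (by norm_num)
    (Nat.pow_le_pow_right (show 16 > 0 by norm_num) (show 1 ≤ 2 * a by omega))
  refine ⟨W a, inferInstance, T a, ⟨?_, Pool.Agent.H10.PTree.acyclic _ (fun v => v.1) ?_⟩, ?_,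
    by simp; omega, ?_⟩
  · have : Nonempty (W a) := ⟨root a⟩
    refine ⟨fun u v => ?_⟩
    obtain ⟨p, -⟩ := walk a _ u (memW.mp u.2).1
    obtain ⟨q, -⟩ := walk a _ v (memW.mp v.2).1
    exact ⟨p.append q.reverse⟩
  · rintro v x y ⟨h1, h2⟩ ⟨h3, h4⟩ hx hy
    have := Subtype.val_injective.ne h1
    have := Subtype.val_injective.ne h3
    exact Subtype.ext (by omega)
  · intro v
    rw [← Set.ncard_image_of_injective _ Subtype.val_injective]
    refine le_trans (Set.ncard_le_ncard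
      (t := (insert (v.1 / 16) (Ico (16 * v.1) (16 * v.1 + 16)) : Finset ℕ)) ?_ (Set.toFinite _)) ?_
    · rintro _ ⟨x, ⟨-, h⟩, rfl⟩
      simp; omega
    · rw [Set.ncard_coe_finset]; exact (card_insert_le _ _).trans (by simp)
  · rw [Fintype.card_coe]
    have d1 : (gammaE (T a) : ℝ) ≤ 16 ^ a := by exact_mod_cast dom a ha0
    have m1 : (16 : ℝ) ^ a * 16 ^ a ≤ (W a).card := by rw [← pow_add, ← two_mul]; exact_mod_cast n1
    have l0 : 0 < Real.log (W a).card := Real.log_pos (by exact_mod_cast (by omega))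
    have l1 : Real.log (W a).card ≤ (2 * a + 1 : ℕ) * Real.log 16 := by
      rw [← Real.log_pow]
      exact Real.log_le_log (by exact_mod_cast (by omega)) (by exact_mod_cast n2)
    have l2 := Real.log_le_sub_one_of_pos (show (0 : ℝ) < 16 by norm_num)
    have l3 : (a : ℝ) * a ≤ 16 ^ a := by
      have := Nat.lt_pow_self (n := a) (show 1 < 4 by norm_num)
      have : a * a ≤ 16 ^ a := by rw [show 16 = 4 * 4 by norm_num, mul_pow]; nlinarith
      exact_mod_cast this
    have a1 : (1 : ℝ) ≤ a := by exact_mod_cast ha0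
    rw [div_lt_iff₀ hc] at ha
    rw [← mul_div_assoc, lt_div_iff₀ l0]
    push_cast at l1
    have p1 : (0 : ℝ) < 16 ^ a := by positivity
    have l4 : Real.log (W a).card ≤ 45 * a := by nlinarith
    have l5 : Real.log (W a).card < c * 16 ^ a := by nlinarith
    calc _ ≤ 16 ^ a * Real.log (W a).card := by gcongr
      _ < 16 ^ a * (c * 16 ^ a) := by gcongr
      _ ≤ _ := by nlinarith

end Pool.Agent.Results.MP_75fda7_co.Counter
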